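import Pool.Agent.W485.RL.Stm

/-!
# Project RL, subtask THETA: an entire function which is small off a sector
-/

set_option autoImplicit false

namespace Pool.Agent.W882.RL

open Complex Set Filter Topology Pool.Agent.W485.RL

/-- uniform approximation on `K` by entire functions -/
def EA (K : Set ℂ) (f : ℂ → ℂ) : Prop :=
  ∀ δ : ℝ, 0 < δ → ∃ F : ℂ → ℂ, Differentiable ℂ F ∧ ∀ z ∈ K, ‖F z - f z‖ ≤ δ

theorem EA.congr {K : Set ℂ} {f g : ℂ → ℂ} (h : EA K f) (e : ∀ z ∈ K, f z = g z) : EA K g := by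
  intro δ hδ
  obtain ⟨F, hF, hd⟩ := h δ hδ
  exact ⟨F, hF, fun z hz => by rw [← e z hz]; exact hd z hz⟩

theorem EA.of_diff {K : Set ℂ} {f : ℂ → ℂ} (h : Differentiable ℂ f) : EA K f :=
  fun δ hδ => ⟨f, h, fun z _ => by rw [sub_self, norm_zero]; exact hδ.le⟩

theorem EA.add {K : Set ℂ} {f g : ℂ → ℂ} (hf : EA K f) (hg : EA K g) :
    EA K (fun z => f z + g z) := by
  intro δ hδ
  obtain ⟨F, hF, hd⟩ := hf (δ / 2) (by positivity)
  obtain ⟨G, hG, he⟩ := hg (δ / 2) (by positivity)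
  refine ⟨fun z => F z + G z, hF.add hG, fun z hz => ?_⟩
  have h1 := hd z hz
  have h2 := he z hz
  have h3 : F z + G z - (f z + g z) = (F z - f z) + (G z - g z) := by ring
  rw [h3]
  linarith [norm_add_le (F z - f z) (G z - g z)]

theorem EA.limit {K : Set ℂ} {f : ℂ → ℂ}
    (h : ∀ δ : ℝ, 0 < δ → ∃ g : ℂ → ℂ, EA K g ∧ ∀ z ∈ K, ‖g z - f z‖ ≤ δ) : EA K f := by
  intro δ hδ
  obtain ⟨g, hg, he⟩ := h (δ / 2) (by positivity)
  obtain ⟨G, hG, hd⟩ := hg (δ / 2) (by positivity)
  refine ⟨G, hG, fun z hz => ?_⟩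
  have h3 : G z - f z = (G z - g z) + (g z - f z) := by ring
  rw [h3]
  linarith [norm_add_le (G z - g z) (g z - f z), hd z hz, he z hz]

theorem EA.bdd {K : Set ℂ} {f : ℂ → ℂ} (h : EA K f) {R : ℝ} (hK : ∀ z ∈ K, ‖z‖ ≤ R) :
    ∃ B : ℝ, ∀ z ∈ K, ‖f z‖ ≤ B := by
  obtain ⟨F, hF, hd⟩ := h 1 one_pos
  obtain ⟨B, hB⟩ := (isCompact_closedBall (0 : ℂ) R).exists_bound_of_continuousOn
    hF.continuous.continuousOn
  refine ⟨B + 1, fun z hz => ?_⟩
  have h1 := hB z (by simpa using hK z hz)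
  have h2 := hd z hz
  have h3 : f z = F z - (F z - f z) := by ring
  rw [h3]
  linarith [norm_sub_le (F z) (F z - f z)]

theorem EA.comp {K : Set ℂ} {f ψ : ℂ → ℂ} (h : EA K f) {R : ℝ} (hK : ∀ z ∈ K, ‖z‖ ≤ R)
    (hψ : Differentiable ℂ ψ) : EA K (fun z => ψ (f z)) := by
  obtain ⟨B, hB⟩ := h.bdd hK
  intro δ hδ
  have huc : UniformContinuousOn ψ (Metric.closedBall 0 (B + 1)) :=
    (isCompact_closedBall (0 : ℂ) (B + 1)).uniformContinuousOn_of_continuous
      hψ.continuous.continuousOn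
  rw [Metric.uniformContinuousOn_iff] at huc
  obtain ⟨η, hη, huc⟩ := huc δ hδ
  obtain ⟨F, hF, hd⟩ := h (min 1 (η / 2)) (by positivity)
  refine ⟨fun z => ψ (F z), hψ.comp hF, fun z hz => ?_⟩
  have h1 := hd z hz
  have h2 : ‖F z‖ ≤ B + 1 := by
    have h3 : F z = f z + (F z - f z) := by ring
    rw [h3]
    linarith [norm_add_le (f z) (F z - f z), hB z hz, min_le_left 1 (η / 2)]
  have h4 : ‖f z‖ ≤ B + 1 := by linarith [hB z hz]
  have h5 : dist (F z) (f z) < η := by
    rw [dist_eq_norm]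
    linarith [min_le_right 1 (η / 2)]
  have := huc (F z) (by simpa using h2) (f z) (by simpa using h4) h5
  rw [dist_eq_norm] at this
  exact this.le

theorem EA.id_mul {K : Set ℂ} {f : ℂ → ℂ} (h : EA K f) {R : ℝ} (hR : 0 ≤ R)
    (hK : ∀ z ∈ K, ‖z‖ ≤ R) : EA K (fun z => z * f z) := by
  intro δ hδ
  obtain ⟨F, hF, hd⟩ := h (δ / (R + 1)) (by positivity)
  refine ⟨fun z => z * F z, differentiable_id.mul hF, fun z hz => ?_⟩
  have h1 : z * F z - z * f z = z * (F z - f z) := by ring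
  rw [h1, norm_mul]
  calc ‖z‖ * ‖F z - f z‖ ≤ (R + 1) * (δ / (R + 1)) :=
        mul_le_mul (by linarith [hK z hz]) (hd z hz) (norm_nonneg _) (by linarith)
    _ = δ := by field_simp

/-- additivity of the logarithm in a half plane -/
theorem log_div_half {x y : ℂ} (hx : x ∈ slitPlane) (hy : y ∈ slitPlane)
    (h : (x.im ≤ 0 ∧ y.im ≤ 0) ∨ (0 ≤ x.im ∧ 0 ≤ y.im)) :
    Complex.log y = Complex.log x + Complex.log (y / x) := by
  have hx' := Complex.mem_slitPlane_iff_arg.1 hx
  have hy' := Complex.mem_slitPlane_iff_arg.1 hy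
  have hax : arg x⁻¹ = -arg x := by rw [Complex.arg_inv, if_neg hx'.1]
  have key : arg y + arg x⁻¹ ∈ Ioc (-Real.pi) Real.pi := by
    rw [hax]
    have b1 := Complex.neg_pi_lt_arg x
    have b2 := Complex.neg_pi_lt_arg y
    have b3 := Complex.arg_le_pi x
    have b4 := Complex.arg_le_pi y
    rcases h with ⟨h1, h2⟩ | ⟨h1, h2⟩
    · have nonpos : ∀ z : ℂ, z ∈ slitPlane → z.im ≤ 0 → arg z ≤ 0 := by
        intro z hz hz2
        rcases hz2.lt_or_eq with h3 | h3
        · exact (Complex.arg_neg_iff.2 h3).le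
        · rcases Complex.mem_slitPlane_iff.1 hz with h4 | h4
          · exact (Complex.arg_eq_zero_iff.2 ⟨h4.le, h3⟩).le
          · exact absurd h3 h4
      have c1 := nonpos x hx h1
      have c2 := nonpos y hy h2
      constructor <;> linarith
    · have c1 := Complex.arg_nonneg_iff.2 h1
      have c2 := Complex.arg_nonneg_iff.2 h2
      have c3 : arg x < Real.pi := lt_of_le_of_ne b3 hx'.1
      constructor <;> linarith
  have e1 := (Complex.log_mul_eq_add_log_iff hy'.2 (inv_ne_zero hx'.2)).2 key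
  rw [Complex.log_inv x hx'.1] at e1
  rw [div_eq_mul_inv, e1]
  ring

/-- the compact set -/
def KK (A γ : ℝ) : Set ℂ := {w | ‖w‖ ≤ 1 ∨ (‖w‖ ≤ A ∧ w ∉ Sec γ)}

theorem KK_le {A γ : ℝ} (hA : 1 ≤ A) : ∀ w ∈ KK A γ, ‖w‖ ≤ A := by
  rintro w (h | h)
  · linarith
  · exact h.1

theorem re_im (s : ℝ) (w : ℂ) : (1 - (s : ℂ) * w / 2).re = 1 - s * w.re / 2 ∧
    (1 - (s : ℂ) * w / 2).im = -(s * w.im / 2) := by
  have e : (1 - (s : ℂ) * w / 2) = ((1 - s * w.re / 2 : ℝ) : ℂ) + ((-(s * w.im / 2) : ℝ) : ℂ) * I := by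
    apply Complex.ext <;> simp
  constructor
  · rw [e]; simp
  · rw [e]; simp

theorem slit {A γ s : ℝ} (hγ : 0 < γ) (h0 : 0 ≤ s) (h1 : s ≤ 1) {w : ℂ} (hw : w ∈ KK A γ) :
    (1 - (s : ℂ) * w / 2) ∈ slitPlane := by
  obtain ⟨hre, him⟩ := re_im s w
  rw [Complex.mem_slitPlane_iff, hre, him]
  rcases hw with h | h
  · left
    have h2 := (abs_le.1 (Complex.abs_re_le_norm w)).2
    nlinarith
  · by_cases h3 : 0 < 1 - s * w.re / 2
    · exact Or.inl h3
    · right
      push Not at h3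
      have h4 : 0 < s := by
        rcases h0.lt_or_eq with h5 | h5
        · exact h5
        · rw [← h5] at h3; norm_num at h3
      have h5 : 0 < w.re := by
        by_contra h6
        push Not at h6
        nlinarith
      have h6 : γ * w.re ≤ |w.im| := by
        have := h.2
        exact not_lt.1 this
      have h7 : 0 < |w.im| := lt_of_lt_of_le (by positivity) h6
      have h8 : w.im ≠ 0 := abs_pos.1 h7
      intro h9
      have h10 : s * w.im = 0 := by linarith
      rcases mul_eq_zero.1 h10 with h11 | h11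
      · exact h4.ne' h11
      · exact h8 h11

theorem lower {A γ s : ℝ} (hγ : 0 < γ) (h0 : 0 ≤ s) (h1 : s ≤ 1) {w : ℂ} (hw : w ∈ KK A γ) :
    min (1 / 2) (γ / 2) ≤ ‖1 - (s : ℂ) * w / 2‖ := by
  obtain ⟨hre, him⟩ := re_im s w
  have a1 := Complex.abs_re_le_norm (1 - (s : ℂ) * w / 2)
  have a2 := Complex.abs_im_le_norm (1 - (s : ℂ) * w / 2)
  rw [hre] at a1
  rw [him] at a2
  rcases hw with h | h
  · have h2 := (abs_le.1 (Complex.abs_re_le_norm w)).2
    have h3 : (1 : ℝ) / 2 ≤ 1 - s * w.re / 2 := by nlinarith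
    exact (min_le_left _ _).trans (h3.trans ((le_abs_self _).trans a1))
  · by_cases h3 : s * w.re / 2 ≤ 1 / 2
    · have h4 : (1 : ℝ) / 2 ≤ 1 - s * w.re / 2 := by linarith
      exact (min_le_left _ _).trans (h4.trans ((le_abs_self _).trans a1))
    · push Not at h3
      have h6 : γ * w.re ≤ |w.im| := by
        have := h.2
        exact not_lt.1 this
      have h7 : γ / 2 ≤ |-(s * w.im / 2)| := by
        rw [abs_neg, abs_div, abs_mul, abs_of_nonneg h0, abs_two]
        have : γ * (s * w.re) ≤ s * |w.im| := by nlinarith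
        have h8 : γ * 1 ≤ γ * (s * w.re) := by
          apply mul_le_mul_of_nonneg_left _ hγ.le
          linarith
        linarith
      exact (min_le_right _ _).trans (h7.trans a2)

/-- `log (1 - s w / 2)` -/
noncomputable def p (s : ℝ) (w : ℂ) : ℂ := Complex.log (1 - (s : ℂ) * w / 2)

theorem logTaylor_diff (n : ℕ) : Differentiable ℂ (Complex.logTaylor n) := by
  unfold Complex.logTaylor
  fun_prop

theorem step {A γ s h : ℝ} (hA : 1 ≤ A) (hγ : 0 < γ) (h0 : 0 ≤ s) (hh : 0 ≤ h) (h1 : s + h ≤ 1)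
    (hh2 : h * A ≤ min (1 / 2) (γ / 2)) (hp : EA (KK A γ) (p s)) : EA (KK A γ) (p (s + h)) := by
  have hK := KK_le (γ := γ) hA
  set a : ℂ → ℂ := fun w => -(((h / 2 : ℝ) : ℂ) * (w * Complex.exp (-(p s w)))) with ha
  have ea : EA (KK A γ) a := by
    have e1 : EA (KK A γ) (fun w => Complex.exp (-(p s w))) :=
      hp.comp hK (ψ := fun z => Complex.exp (-z)) (by fun_prop)
    have e2 := e1.id_mul (by linarith) hK
    exact e2.comp hK (ψ := fun z => -(((h / 2 : ℝ) : ℂ) * z)) (by fun_prop)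
  have hexp : ∀ w ∈ KK A γ, Complex.exp (-(p s w)) = (1 - (s : ℂ) * w / 2)⁻¹ := by
    intro w hw
    have hs := slit hγ h0 (by linarith) hw
    rw [Complex.exp_neg, p, Complex.exp_log (Complex.slitPlane_ne_zero hs)]
  have hk : 0 < min (1 / 2 : ℝ) (γ / 2) := by positivity
  have na : ∀ w ∈ KK A γ, ‖a w‖ ≤ 1 / 2 := by
    intro w hw
    have hl := lower hγ h0 (by linarith) hw
    rw [ha]
    simp only
    rw [norm_neg, norm_mul, norm_mul, hexp w hw, norm_inv, Complex.norm_real, Real.norm_eq_abs,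
      abs_of_nonneg (by positivity), ← mul_assoc, ← div_eq_mul_inv,
      div_le_iff₀ (lt_of_lt_of_le hk hl)]
    have := hK w hw
    nlinarith
  have elog : EA (KK A γ) (fun w => Complex.log (1 + a w)) := by
    refine EA.limit fun δ hδ => ?_
    obtain ⟨N, hN⟩ := exists_pow_lt_of_lt_one hδ (show (1 / 2 : ℝ) < 1 by norm_num)
    refine ⟨fun w => Complex.logTaylor (N + 1) (a w), ea.comp hK (logTaylor_diff _), ?_⟩
    intro w hw
    have h2 := na w hw
    have h3 := Complex.norm_log_sub_logTaylor_le N (z := a w) (by linarith)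
    rw [norm_sub_rev]
    refine h3.trans (le_trans ?_ hN.le)
    have h4 : ‖a w‖ ^ (N + 1) ≤ (1 / 2) ^ (N + 1) := pow_le_pow_left₀ (norm_nonneg _) h2 _
    have h5 : (1 - ‖a w‖)⁻¹ ≤ 2 := by
      rw [inv_le_comm₀ (by linarith) (by norm_num)]
      linarith
    have h6 : ‖a w‖ ^ (N + 1) * (1 - ‖a w‖)⁻¹ ≤ (1 / 2) ^ (N + 1) * 2 :=
      mul_le_mul h4 h5 (by rw [inv_nonneg]; linarith) (by positivity)
    have h7 : ‖a w‖ ^ (N + 1) * (1 - ‖a w‖)⁻¹ / (N + 1) ≤ ‖a w‖ ^ (N + 1) * (1 - ‖a w‖)⁻¹ := by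
      apply div_le_self
      · have : 0 ≤ (1 - ‖a w‖)⁻¹ := by rw [inv_nonneg]; linarith
        positivity
      · have : (0 : ℝ) ≤ N := Nat.cast_nonneg N
        linarith
    refine h7.trans (h6.trans (le_of_eq ?_))
    rw [pow_succ]
    ring
  refine (hp.add elog).congr fun w hw => ?_
  have hs := slit hγ h0 (by linarith) hw
  have hs2 := slit hγ (by linarith : 0 ≤ s + h) h1 hw
  have hx0 := Complex.slitPlane_ne_zero hs
  have e3 : 1 + a w = (1 - ((s + h : ℝ) : ℂ) * w / 2) / (1 - (s : ℂ) * w / 2) := by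
    rw [ha]
    simp only
    rw [hexp w hw, eq_div_iff hx0]
    have h9 := inv_mul_cancel₀ hx0
    push_cast
    linear_combination (-((h : ℂ) / 2 * w)) * h9
  rw [e3]
  unfold p
  refine (log_div_half hs hs2 ?_).symm
  rw [(re_im s w).2, (re_im (s + h) w).2]
  rcases le_total 0 w.im with h5 | h5
  · left
    constructor <;> nlinarith
  · right
    constructor <;> nlinarith

theorem ea_p {A γ : ℝ} (hA : 1 ≤ A) (hγ : 0 < γ) : EA (KK A γ) (p 1) := by
  have hk : 0 < min (1 / 2 : ℝ) (γ / 2) := by positivity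
  obtain ⟨m, hm⟩ := exists_nat_gt (A / min (1 / 2 : ℝ) (γ / 2))
  have hm0 : (0 : ℝ) < m := lt_of_le_of_lt (by positivity) hm
  have hm1 : 1 / (m : ℝ) * A ≤ min (1 / 2) (γ / 2) := by
    rw [div_lt_iff₀ hk] at hm
    rw [one_div, inv_mul_le_iff₀ hm0]
    exact hm.le
  have key : ∀ j : ℕ, j ≤ m → EA (KK A γ) (p ((j : ℝ) / m)) := by
    intro j
    induction j with
    | zero =>
      intro _
      refine (EA.of_diff (differentiable_const (0 : ℂ))).congr fun z _ => ?_
      unfold p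
      simp
    | succ j ih =>
      intro hj
      have h2 : ((j + 1 : ℕ) : ℝ) / m = (j : ℝ) / m + 1 / m := by push_cast; ring
      rw [h2]
      refine step hA hγ (by positivity) (by positivity) ?_ hm1 (ih (by omega))
      rw [← h2, div_le_one hm0]
      exact_mod_cast hj
  have := key m le_rfl
  rwa [div_self hm0.ne'] at this

theorem t_Theta : STheta := by
  intro ε hε
  set M : ℝ := min 1 (ε / 4) with hM
  have hM0 : 0 < M := by positivity
  have hM1 : M ≤ 1 := min_le_left _ _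
  have hM2 : M ≤ ε / 4 := min_le_right _ _
  set Y : ℝ := |1 + |Real.log (2 / ε)| / M| with hY
  have hY1 : 1 + |Real.log (2 / ε)| / M ≤ Y := le_abs_self _
  have hY0 : 0 ≤ Y := abs_nonneg _
  refine ⟨2 * Real.exp (8 * Y) + 4, by have := Real.exp_pos (8 * Y); linarith, ?_⟩
  intro A' γ hγ
  set A : ℝ := max A' 1 with hA
  have hA1 : 1 ≤ A := le_max_right _ _
  have hK := KK_le (γ := γ) hA1
  have e1 := ea_p hA1 hγ
  have e2 : EA (KK A γ) (fun w => Complex.exp (-((M : ℂ) * (Complex.exp (p 1 w / 4) - 1)))) :=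
    e1.comp hK (ψ := fun z => Complex.exp (-((M : ℂ) * (Complex.exp (z / 4) - 1)))) (by fun_prop)
  obtain ⟨θ, hθ, hd⟩ := e2 (ε / 2) (by positivity)
  have hp1 : ∀ w : ℂ, p 1 w = Complex.log (1 - w / 2) := fun w => by unfold p; simp
  have hnorm : ∀ w : ℂ, ‖Complex.exp (-((M : ℂ) * (Complex.exp (p 1 w / 4) - 1)))‖ =
      Real.exp (-(M * ((Complex.exp (p 1 w / 4)).re - 1))) := by
    intro w
    rw [Complex.norm_exp]
    congr 1
    simp
  have hre : ∀ w : ℂ, (1 / 2) * Real.exp ((p 1 w).re / 4) ≤ (Complex.exp (p 1 w / 4)).re := by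
    intro w
    rw [Complex.exp_re]
    have h1 : (p 1 w / 4).re = (p 1 w).re / 4 := by
      have : (p 1 w / 4) = ((1 / 4 : ℝ) : ℂ) * p 1 w := by push_cast; ring
      rw [this, Complex.re_ofReal_mul]; ring
    have h2 : (p 1 w / 4).im = (p 1 w).im / 4 := by
      have : (p 1 w / 4) = ((1 / 4 : ℝ) : ℂ) * p 1 w := by push_cast; ring
      rw [this, Complex.im_ofReal_mul]; ring
    rw [h1, h2]
    have h3 : |(p 1 w).im / 4| ≤ Real.pi / 4 := by
      rw [abs_div, abs_of_pos (by norm_num : (0 : ℝ) < 4)]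
      have : |(p 1 w).im| ≤ Real.pi := by
        unfold p
        rw [Complex.log_im]
        exact Complex.abs_arg_le_pi _
      linarith
    have h4 : (1 : ℝ) / 2 ≤ Real.cos ((p 1 w).im / 4) := by
      rw [← Real.cos_abs]
      have h5 : Real.cos (Real.pi / 3) ≤ Real.cos |(p 1 w).im / 4| := by
        apply Real.cos_le_cos_of_nonneg_of_le_pi (abs_nonneg _)
        · linarith [Real.pi_pos]
        · linarith [Real.pi_pos]
      rwa [Real.cos_pi_div_three] at h5
    rw [mul_comm]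
    exact mul_le_mul_of_nonneg_left h4 (Real.exp_pos _).le
  refine ⟨θ, hθ, ?_, ?_, ?_⟩
  · intro w hw
    have h1 := hd w (Or.inl hw)
    have h2 : ‖p 1 w‖ ≤ 3 / 4 := by
      rw [hp1]
      have h3 : ‖-(w / 2)‖ ≤ 1 / 2 := by
        rw [norm_neg, norm_div]
        simp only [Complex.norm_ofNat]
        linarith
      have h4 := Complex.norm_log_one_add_half_le_self h3
      rw [← sub_eq_add_neg] at h4
      linarith
    have h3 : ‖Complex.exp (p 1 w / 4) - 1‖ ≤ 3 / 8 := by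
      have h4 : ‖p 1 w / 4‖ ≤ 3 / 16 := by
        rw [norm_div]
        simp only [Complex.norm_ofNat]
        linarith
      have := Complex.norm_exp_sub_one_le (x := p 1 w / 4) (by linarith)
      linarith
    have h4 : ‖-((M : ℂ) * (Complex.exp (p 1 w / 4) - 1))‖ ≤ M * (3 / 8) := by
      rw [norm_neg, norm_mul, Complex.norm_real, Real.norm_eq_abs, abs_of_pos hM0]
      exact mul_le_mul_of_nonneg_left h3 hM0.le
    have h5 := Complex.norm_exp_sub_one_le (x := -((M : ℂ) * (Complex.exp (p 1 w / 4) - 1)))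
      (by linarith)
    have h6 : θ w - 1 = (θ w - Complex.exp (-((M : ℂ) * (Complex.exp (p 1 w / 4) - 1)))) +
        (Complex.exp (-((M : ℂ) * (Complex.exp (p 1 w / 4) - 1))) - 1) := by ring
    rw [h6]
    refine (norm_add_le _ _).trans ?_
    linarith
  · intro w hw hs
    have h1 := hd w (Or.inr ⟨hw.trans (le_max_left _ _), hs⟩)
    have h2 : ‖Complex.exp (-((M : ℂ) * (Complex.exp (p 1 w / 4) - 1)))‖ ≤ 1 + ε / 2 := by
      rw [hnorm]
      have h3 := hre w
      have h4 := Real.exp_pos ((p 1 w).re / 4)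
      have h5 : -(M * ((Complex.exp (p 1 w / 4)).re - 1)) ≤ M := by nlinarith
      have h6 : Real.exp M ≤ 1 + 2 * M := by
        have h7 := Real.abs_exp_sub_one_le (x := M) (by rw [abs_of_pos hM0]; exact hM1)
        rw [abs_of_pos hM0] at h7
        linarith [le_abs_self (Real.exp M - 1)]
      calc Real.exp (-(M * ((Complex.exp (p 1 w / 4)).re - 1))) ≤ Real.exp M :=
            Real.exp_le_exp.2 h5
        _ ≤ 1 + ε / 2 := by linarith
    have h6 : θ w = (θ w - Complex.exp (-((M : ℂ) * (Complex.exp (p 1 w / 4) - 1)))) +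
        Complex.exp (-((M : ℂ) * (Complex.exp (p 1 w / 4) - 1))) := by ring
    rw [h6]
    refine (norm_add_le _ _).trans ?_
    linarith
  · intro w hT hw hs
    have h1 := hd w (Or.inr ⟨hw.trans (le_max_left _ _), hs⟩)
    have h2 : ‖Complex.exp (-((M : ℂ) * (Complex.exp (p 1 w / 4) - 1)))‖ ≤ ε / 2 := by
      rw [hnorm]
      have h3 := hre w
      have h4 : 8 * Y ≤ (p 1 w).re := by
        rw [hp1, Complex.log_re]
        have h5 : Real.exp (8 * Y) ≤ ‖1 - w / 2‖ := by
          have h6 : ‖w / 2‖ ≤ ‖1 - w / 2‖ + 1 := by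
            have h7 : w / 2 = 1 - (1 - w / 2) := by ring
            calc ‖w / 2‖ = ‖1 - (1 - w / 2)‖ := by rw [← h7]
              _ ≤ ‖(1 : ℂ)‖ + ‖1 - w / 2‖ := norm_sub_le _ _
              _ = ‖1 - w / 2‖ + 1 := by rw [norm_one]; ring
          rw [norm_div] at h6
          simp only [Complex.norm_ofNat] at h6
          linarith
        calc 8 * Y = Real.log (Real.exp (8 * Y)) := (Real.log_exp _).symm
          _ ≤ Real.log ‖1 - w / 2‖ := Real.log_le_log (Real.exp_pos _) h5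
      have h5 := Real.add_one_le_exp ((p 1 w).re / 4)
      have h6 : Y ≤ (Complex.exp (p 1 w / 4)).re := by linarith
      have h7 : |Real.log (2 / ε)| ≤ M * ((Complex.exp (p 1 w / 4)).re - 1) := by
        have h8 : |Real.log (2 / ε)| / M ≤ (Complex.exp (p 1 w / 4)).re - 1 := by linarith
        rw [div_le_iff₀ hM0] at h8
        linarith
      have h8 : -(M * ((Complex.exp (p 1 w / 4)).re - 1)) ≤ Real.log (ε / 2) := by
        have h9 : Real.log (ε / 2) = -Real.log (2 / ε) := by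
          rw [← Real.log_inv, inv_div]
        rw [h9]
        have := le_abs_self (Real.log (2 / ε))
        linarith
      calc Real.exp (-(M * ((Complex.exp (p 1 w / 4)).re - 1))) ≤ Real.exp (Real.log (ε / 2)) :=
            Real.exp_le_exp.2 h8
        _ = ε / 2 := Real.exp_log (by positivity)
    have h6 : θ w = (θ w - Complex.exp (-((M : ℂ) * (Complex.exp (p 1 w / 4) - 1)))) +
        Complex.exp (-((M : ℂ) * (Complex.exp (p 1 w / 4) - 1))) := by ring
    rw [h6]
    refine (norm_add_le _ _).trans ?_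
    linarith

end Pool.Agent.W882.RL
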